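import Pool.Agent.W104.Irr.Stmts2

/-! Labels at the bottom and at the top (helper104, MP_033e98_co). -/

set_option autoImplicit false

namespace Pool.Agent.W340.Irr

open Finset Pool.Agent.W104.Irr

theorem labels (h : LabelList) : Labels := by
  intro V _ Lf A M Pre Xl Tl f1 f2 hnd hmem hA hf1 hf2 hi1 hi2 h12
  classical
  set bot : List V := Pre ++ (A.toList ++ (Xl ++ M.toList.map f1)) with hbot
  set tp : List V := Tl ++ M.toList.map f2 with htp
  have hnd' := hnd
  rw [List.nodup_append, List.nodup_append] at hnd'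
  obtain ⟨⟨n1, n2, n3⟩, n4, n5⟩ := hnd'
  have m1 : ∀ x ∈ Pre, x ∈ Lf ∧ x ∉ A := fun x hx => hmem x (by simp [hx])
  have m2 : ∀ x ∈ Xl, x ∈ Lf ∧ x ∉ A := fun x hx => hmem x (by simp [hx])
  have m3 : ∀ x ∈ Tl, x ∈ Lf ∧ x ∉ A := fun x hx => hmem x (by simp [hx])
  have g1 : ∀ v ∈ M, f1 v ∉ Pre ∧ f1 v ∉ Xl ∧ f1 v ∉ Tl := by
    intro v hv
    have := (hf1 v hv).2.2
    simp only [List.mem_append, not_or] at this
    tauto
  have g2 : ∀ v ∈ M, f2 v ∉ Pre ∧ f2 v ∉ Xl ∧ f2 v ∉ Tl := by
    intro v hv
    have := (hf2 v hv).2.2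
    simp only [List.mem_append, not_or] at this
    tauto
  have k1 : (M.toList.map f1).Nodup := by
    apply List.Nodup.map_on _ M.nodup_toList
    intro a ha b hb hab
    exact hi1 (mem_toList.1 ha) (mem_toList.1 hb) hab
  have k2 : (M.toList.map f2).Nodup := by
    apply List.Nodup.map_on _ M.nodup_toList
    intro a ha b hb hab
    exact hi2 (mem_toList.1 ha) (mem_toList.1 hb) hab
  have e1 : ∀ x ∈ M.toList.map f1, ∃ v ∈ M, f1 v = x := by
    intro x hx
    obtain ⟨v, hv, rfl⟩ := List.mem_map.1 hx
    exact ⟨v, mem_toList.1 hv, rfl⟩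
  have e2 : ∀ x ∈ M.toList.map f2, ∃ v ∈ M, f2 v = x := by
    intro x hx
    obtain ⟨v, hv, rfl⟩ := List.mem_map.1 hx
    exact ⟨v, mem_toList.1 hv, rfl⟩
  have nodup : (bot ++ tp).Nodup := by
    rw [hbot, htp]
    simp only [List.nodup_append]
    refine ⟨⟨n1, ⟨A.nodup_toList, ⟨n2, k1, ?_⟩, ?_⟩, ?_⟩, ⟨n4, k2, ?_⟩, ?_⟩
    · intro a ha b hb hab
      obtain ⟨v, hv, rfl⟩ := e1 b hb
      exact (g1 v hv).2.1 (hab ▸ ha)
    · intro a ha b hb hab
      rw [mem_toList] at ha
      rcases List.mem_append.1 hb with hb | hb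
      · exact (m2 b hb).2 (hab ▸ ha)
      · obtain ⟨v, hv, rfl⟩ := e1 b hb
        exact (hf1 v hv).2.1 (hab ▸ ha)
    · intro a ha b hb hab
      rcases List.mem_append.1 hb with hb | hb
      · rw [mem_toList] at hb
        exact (m1 a ha).2 (hab ▸ hb)
      rcases List.mem_append.1 hb with hb | hb
      · exact n3 a ha b hb hab
      · obtain ⟨v, hv, rfl⟩ := e1 b hb
        exact (g1 v hv).1 (hab ▸ ha)
    · intro a ha b hb hab
      obtain ⟨v, hv, rfl⟩ := e2 b hb
      exact (g2 v hv).2.2 (hab ▸ ha)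
    · intro a ha b hb hab
      subst hab
      rcases List.mem_append.1 hb with hb | hb
      · -- a in Tl
        rcases List.mem_append.1 ha with ha | ha
        · exact n5 a (List.mem_append_left _ ha) a hb rfl
        rcases List.mem_append.1 ha with ha | ha
        · exact (m3 a hb).2 (mem_toList.1 ha)
        rcases List.mem_append.1 ha with ha | ha
        · exact n5 a (List.mem_append_right _ ha) a hb rfl
        · obtain ⟨v, hv, rfl⟩ := e1 a ha
          exact (g1 v hv).2.2 hb
      · obtain ⟨v, hv, rfl⟩ := e2 a hb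
        rcases List.mem_append.1 ha with ha | ha
        · exact (g2 v hv).1 ha
        rcases List.mem_append.1 ha with ha | ha
        · exact (hf2 v hv).2.1 (mem_toList.1 ha)
        rcases List.mem_append.1 ha with ha | ha
        · exact (g2 v hv).2.1 ha
        · obtain ⟨u, hu, huv⟩ := e1 _ ha
          exact h12 u hu v hv huv
  have hin : ∀ x ∈ bot ++ tp, x ∈ Lf := by
    intro x hx
    rcases List.mem_append.1 hx with hx | hx
    · rcases List.mem_append.1 hx with hx | hx
      · exact (m1 x hx).1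
      rcases List.mem_append.1 hx with hx | hx
      · exact hA (mem_toList.1 hx)
      rcases List.mem_append.1 hx with hx | hx
      · exact (m2 x hx).1
      · obtain ⟨v, hv, rfl⟩ := e1 x hx
        exact (hf1 v hv).1
    · rcases List.mem_append.1 hx with hx | hx
      · exact (m3 x hx).1
      · obtain ⟨v, hv, rfl⟩ := e2 x hx
        exact (hf2 v hv).1
  obtain ⟨e, he1, he2, he3, he4⟩ := h Lf bot tp nodup hin
  -- a convenient form
  have hb : ∀ (i : ℕ) (x : V), bot[i]? = some x → e x = i + 1 := by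
    intro i x hx
    obtain ⟨hi, hx'⟩ := List.getElem?_eq_some_iff.1 hx
    rw [← hx']
    exact he3 i hi
  have ht : ∀ (i : ℕ) (x : V), tp[i]? = some x → e x + i = Lf.card := by
    intro i x hx
    obtain ⟨hi, hx'⟩ := List.getElem?_eq_some_iff.1 hx
    rw [← hx']
    exact he4 i hi
  have hAl : A.toList.length = A.card := A.length_toList
  have hbA : ∀ k : ℕ, bot[Pre.length + k]? = (A.toList ++ (Xl ++ M.toList.map f1))[k]? := by
    intro k
    rw [hbot, List.getElem?_append_right (by omega)]
    congr 1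
    omega
  have hbX : ∀ k : ℕ, bot[Pre.length + A.card + k]? = (Xl ++ M.toList.map f1)[k]? := by
    intro k
    rw [add_assoc, hbA, List.getElem?_append_right (by omega), hAl]
    congr 1
    omega
  have hbM : ∀ k : ℕ, bot[Pre.length + A.card + Xl.length + k]? = (M.toList.map f1)[k]? := by
    intro k
    rw [add_assoc, hbX, List.getElem?_append_right (by omega)]
    congr 1
    omega
  have htM : ∀ k : ℕ, tp[Tl.length + k]? = (M.toList.map f2)[k]? := by
    intro k
    rw [htp, List.getElem?_append_right (by omega)]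
    congr 1
    omega
  refine ⟨e, he1, he2, ?_, ?_, ?_, ?_, ?_⟩
  · intro i hi
    apply hb
    rw [hbot, List.getElem?_append_left hi, List.getElem?_eq_getElem hi]
  · intro x hx
    obtain ⟨k, hk, hkx⟩ := List.mem_iff_getElem.1 (mem_toList.2 hx)
    have h1 : bot[Pre.length + k]? = some x := by
      rw [hbA, List.getElem?_append_left hk, List.getElem?_eq_getElem hk, hkx]
    have h2 := hb _ _ h1
    rw [hAl] at hk
    omega
  · intro i hi
    have h1 : bot[Pre.length + A.card + i]? = some Xl[i] := by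
      rw [hbX, List.getElem?_append_left hi, List.getElem?_eq_getElem hi]
    exact hb _ _ h1
  · intro v hv
    obtain ⟨k, hk, hkx⟩ := List.mem_iff_getElem.1 (mem_toList.2 hv)
    have h1 : bot[Pre.length + A.card + Xl.length + k]? = some (f1 v) := by
      rw [hbM, List.getElem?_map, List.getElem?_eq_getElem hk, hkx]
      rfl
    have h2 : tp[Tl.length + k]? = some (f2 v) := by
      rw [htM, List.getElem?_map, List.getElem?_eq_getElem hk, hkx]
      rfl
    have h3 := hb _ _ h1
    have h4 := ht _ _ h2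
    omega
  · intro i hi
    apply ht
    rw [htp, List.getElem?_append_left hi, List.getElem?_eq_getElem hi]

end Pool.Agent.W340.Irr
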